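import Pool.Agent.helper58.CRO.SpecG

open scoped Manifold ContDiff Topology ENNReal
open MeasureTheory Set Bundle Filter

noncomputable section

namespace Pool.Agent.CRO

universe u

variable {n : ℕ} {M : Type u} [TopologicalSpace M] [ChartedSpace (En n) M]

/-- velocity through the chart -/
theorem GDP_vel (χ : OpenPartialHomeomorph M (En n))
    (hmem : χ ∈ IsManifold.maximalAtlas (𝓡 n) ∞ M) (γ : ℝ → M) (t : ℝ) (ht : γ t ∈ χ.source)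
    (hcont : ContinuousAt γ t) (hc : DifferentiableAt ℝ (fun s => χ (γ s)) t) :
    (mfderiv 𝓘(ℝ, ℝ) (𝓡 n) γ t (1 : ℝ) : En n) =
      mfderiv 𝓘(ℝ, En n) (𝓡 n) χ.symm (χ (γ t)) (deriv (fun s => χ (γ s)) t) := by
  have h1 : MDifferentiableAt 𝓘(ℝ, En n) (𝓡 n) χ.symm (χ (γ t)) :=
    (contMDiffAt_symm_of_mem_maximalAtlas hmem (χ.map_source ht)).mdifferentiableAt (by simp)
  have h2 : HasDerivAt (fun s => χ (γ s)) (deriv (fun s => χ (γ s)) t) t := hc.hasDerivAt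
  have h3 : HasMFDerivAt 𝓘(ℝ, ℝ) 𝓘(ℝ, En n) (fun s => χ (γ s)) t
      (ContinuousLinearMap.toSpanSingleton ℝ (deriv (fun s => χ (γ s)) t)) :=
    h2.hasFDerivAt.hasMFDerivAt
  have h4 := (h1.hasMFDerivAt.comp t h3).mfderiv
  have heq : γ =ᶠ[𝓝 t] (χ.symm ∘ fun s => χ (γ s)) := by
    have h5 : ∀ᶠ s in 𝓝 t, γ s ∈ χ.source := hcont (χ.open_source.mem_nhds ht)
    filter_upwards [h5] with s hs
    exact (χ.left_inv hs).symm
  have h6 : mfderiv 𝓘(ℝ, ℝ) (𝓡 n) γ t = mfderiv 𝓘(ℝ, ℝ) (𝓡 n) (χ.symm ∘ fun s => χ (γ s)) t :=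
    heq.mfderiv_eq
  rw [h6, h4]
  show (mfderiv 𝓘(ℝ, En n) (𝓡 n) χ.symm (χ (γ t))) ((1 : ℝ) • deriv (fun s => χ (γ s)) t) = _
  rw [one_smul]
  rfl

theorem GDP_inner [IsManifold (𝓡 n) ∞ M] (g : RMetric n M) (p q : M) (h : p = q) (v : En n) :
    g.inner p (v : TangentSpace (𝓡 n) p) (v : TangentSpace (𝓡 n) p) =
      g.inner q (v : TangentSpace (𝓡 n) q) (v : TangentSpace (𝓡 n) q) := by
  subst h
  rfl

theorem GDP_real {c : ℝ → En n} {a b : ℝ} (hab : a ≤ b) (hc : ∀ t ∈ Icc a b, ContDiffAt ℝ 1 c t)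
    (s : ℝ → ℝ) (hs : ∀ t ∈ Icc a b, |inner ℝ (c t) (deriv c t)| ≤ ‖c t‖ * s t) (hs0 : ∀ t, 0 ≤ s t)
    (L : ℝ≥0∞) (hL : ∫⁻ t in Icc a b, ENNReal.ofReal (s t) ≤ L) :
    ENNReal.ofReal (‖c b‖ - ‖c a‖) ≤ L := by
  have key : ∀ δ : ℝ, 0 < δ → ENNReal.ofReal (‖c b‖ - ‖c a‖ - δ) ≤ L := by
    intro δ hδ
    set f : ℝ → ℝ := fun t => Real.sqrt (‖c t‖ ^ 2 + δ ^ 2) with hf
    have hpos : ∀ t, 0 < ‖c t‖ ^ 2 + δ ^ 2 := fun t => by positivity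
    have hfc : ContDiffOn ℝ 1 f (Icc a b) := by
      intro t ht
      refine ContDiffAt.contDiffWithinAt ?_
      exact (((hc t ht).norm_sq ℝ).add contDiffAt_const).sqrt (hpos t).ne'
    have hder : ∀ t ∈ Icc a b, ‖deriv f t‖ₑ ≤ ENNReal.ofReal (s t) := by
      intro t ht
      have h1 : HasDerivAt c (deriv c t) t := ((hc t ht).differentiableAt (by simp)).hasDerivAt
      have h2 : HasDerivAt (fun t => ‖c t‖ ^ 2 + δ ^ 2) (2 * inner ℝ (c t) (deriv c t)) t :=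
        h1.norm_sq.add_const _
      have h3 := h2.sqrt (hpos t).ne'
      rw [h3.deriv, ← ofReal_norm, Real.norm_eq_abs]
      refine ENNReal.ofReal_le_ofReal ?_
      have h4 : 0 < Real.sqrt (‖c t‖ ^ 2 + δ ^ 2) := Real.sqrt_pos.2 (hpos t)
      rw [mul_div_mul_left _ _ (two_ne_zero' ℝ), abs_div, abs_of_pos h4, div_le_iff₀ h4]
      have h5 : ‖c t‖ ≤ Real.sqrt (‖c t‖ ^ 2 + δ ^ 2) := by
        refine Real.le_sqrt_of_sq_le ?_
        have := sq_nonneg δ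
        linarith
      calc |inner ℝ (c t) (deriv c t)| ≤ ‖c t‖ * s t := hs t ht
        _ ≤ Real.sqrt (‖c t‖ ^ 2 + δ ^ 2) * s t := mul_le_mul_of_nonneg_right h5 (hs0 t)
        _ = _ := mul_comm _ _
    have h1 := enorm_sub_le_lintegral_deriv_of_contDiffOn_Icc hfc hab
    have h2 : ∫⁻ t in Icc a b, ‖deriv f t‖ₑ ≤ ∫⁻ t in Icc a b, ENNReal.ofReal (s t) :=
      setLIntegral_mono' measurableSet_Icc hder
    refine le_trans ?_ ((h1.trans h2).trans hL)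
    rw [← ofReal_norm]
    refine ENNReal.ofReal_le_ofReal ?_
    have h3 : ‖c b‖ ≤ f b := by
      refine Real.le_sqrt_of_sq_le ?_
      have := sq_nonneg δ
      linarith
    have h4 : f a ≤ ‖c a‖ + δ := by
      refine Real.sqrt_le_iff.2 ⟨by positivity, ?_⟩
      nlinarith [norm_nonneg (c a)]
    calc ‖c b‖ - ‖c a‖ - δ ≤ f b - f a := by linarith
      _ ≤ ‖f b - f a‖ := le_abs_self _
  refine ENNReal.le_of_forall_pos_le_add fun ε hε _ => ?_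
  calc ENNReal.ofReal (‖c b‖ - ‖c a‖) = ENNReal.ofReal ((‖c b‖ - ‖c a‖ - ε) + ε) := by
        rw [sub_add_cancel]
    _ ≤ ENNReal.ofReal (‖c b‖ - ‖c a‖ - ε) + ENNReal.ofReal ε := ENNReal.ofReal_add_le
    _ ≤ L + ε := by
        refine add_le_add (key ε (by exact_mod_cast hε)) ?_
        rw [ENNReal.ofReal_coe_nnreal]

theorem GDP (h1 : GDB_stmt.{u}) : GDP_stmt.{u} := by
  intro n M _ _ _ g χ x r hr hχ γ a b hab hγ hsrc
  letI : Bundle.RiemannianBundle (fun x : M => TangentSpace (𝓡 n) x) := ⟨g.toRiemannianMetric⟩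
  show ENNReal.ofReal (‖χ (γ b)‖ - ‖χ (γ a)‖) ≤ Manifold.pathELength (𝓡 n) γ a b
  have hB := h1 n M g χ x r hr hχ
  obtain ⟨hmem, htar, hxs, hx0, hin, hgeo⟩ := hχ
  have hc : ∀ t ∈ Icc a b, ContDiffAt ℝ 1 (fun s => χ (γ s)) t := by
    intro t ht
    have a1 : ContMDiffAt (𝓡 n) 𝓘(ℝ, En n) 1 χ (γ t) :=
      (contMDiffAt_of_mem_maximalAtlas hmem (hsrc t ht)).of_le (by simp)
    have a2 : ContMDiffAt 𝓘(ℝ, ℝ) (𝓡 n) 1 γ t := hγ.contMDiffAt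
    exact (a1.comp t a2).contDiffAt
  refine GDP_real hab hc
    (fun t => Real.sqrt (coef g χ (χ (γ t)) (deriv (fun s => χ (γ s)) t) (deriv (fun s => χ (γ s)) t)))
    ?_ (fun t => Real.sqrt_nonneg _) _ ?_
  · intro t ht
    refine hB _ _ ?_
    have h2 := χ.map_source (hsrc t ht)
    rw [htar] at h2
    simpa using h2
  · rw [Manifold.pathELength_eq_lintegral_mfderiv_Icc]
    refine setLIntegral_mono' measurableSet_Icc fun t ht => ?_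
    rw [← ofReal_norm]
    refine ENNReal.ofReal_le_ofReal (le_of_eq ?_)
    have hv := GDP_vel χ hmem γ t (hsrc t ht) hγ.continuous.continuousAt
      ((hc t ht).differentiableAt (by simp))
    have hn : ‖(mfderiv 𝓘(ℝ, ℝ) (𝓡 n) γ t (1 : ℝ) : TangentSpace (𝓡 n) (γ t))‖ ^ 2
        = coef g χ (χ (γ t)) (deriv (fun s => χ (γ s)) t) (deriv (fun s => χ (γ s)) t) := by
      rw [← real_inner_self_eq_norm_sq]
      have e1 : (inner ℝ (mfderiv 𝓘(ℝ, ℝ) (𝓡 n) γ t (1 : ℝ) : TangentSpace (𝓡 n) (γ t))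
          (mfderiv 𝓘(ℝ, ℝ) (𝓡 n) γ t (1 : ℝ) : TangentSpace (𝓡 n) (γ t))) =
          g.inner (γ t) (mfderiv 𝓘(ℝ, ℝ) (𝓡 n) γ t (1 : ℝ)) (mfderiv 𝓘(ℝ, ℝ) (𝓡 n) γ t (1 : ℝ)) := rfl
      rw [e1]
      have e2 := GDP_inner g (γ t) (χ.symm (χ (γ t))) (χ.left_inv (hsrc t ht)).symm
        (mfderiv 𝓘(ℝ, ℝ) (𝓡 n) γ t (1 : ℝ) : En n)
      refine e2.trans ?_
      rw [hv]
      rfl
    rw [← hn, Real.sqrt_sq (norm_nonneg _)]
    rfl

end Pool.Agent.CRO
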