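import Pool.Agent.helper58.CRO.SpecJ

open scoped Manifold ContDiff Topology ENNReal
open MeasureTheory Set

namespace Pool.Agent.CRO

theorem JCH (h1 : JOM_stmt) (h2 : JNU_stmt) : JCH_stmt := by
  intro n r0 𝒢 L R hn hE hL hR hRr hRL
  obtain ⟨-, -, hk, -⟩ := h2 n hn
  have hn1 : (0 : ℝ) < (n : ℝ) - 1 := by
    have : (2 : ℝ) ≤ n := by exact_mod_cast hn
    linarith
  have hn0 : (0 : ℝ) < n := by linarith
  have hpi := Real.pi_pos
  have hΩ : 0 < 2 * R / Real.pi := by positivity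
  have h3 := h1 n r0 𝒢 L R hn hE hL hR hRr hRL (2 * R / Real.pi) hΩ
  set Ω : ℝ := 2 * R / Real.pi with hΩd
  have h4 : Real.pi / 2 * Ω ^ n = R * Ω ^ (n - 1) := by
    have h5 : Ω ^ n = Ω ^ (n - 1) * Ω := by
      rw [← pow_succ]
      congr 1
      omega
    rw [h5, hΩd]
    field_simp
  rw [h4] at h3
  have h6 : R * Ω ^ (n - 1) / ((n : ℝ) - 1) - R * Ω ^ (n - 1) / n =
      R * Ω ^ (n - 1) / (n * ((n : ℝ) - 1)) := by
    field_simp
    ring
  rw [h6, div_le_div_iff₀ (by positivity) (by positivity)] at h3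
  have h7 : n * (kap n * Ω ^ (n - 1) * R) ≤ n * (((n : ℝ) - 1) * ll n * VV 𝒢 R) := by
    calc n * (kap n * Ω ^ (n - 1) * R) = R * Ω ^ (n - 1) * (n * kap n) := by ring
      _ ≤ ll n * VV 𝒢 R * (n * ((n : ℝ) - 1)) := h3
      _ = _ := by ring
  exact le_of_mul_le_mul_left h7 hn0

end Pool.Agent.CRO
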