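import Pool.Agent.helper58.CRO.SpecK

/-!
# Row cro:KF1: the function fl
-/

open scoped Manifold ContDiff Topology ENNReal
open MeasureTheory Set Bundle Filter

noncomputable section

namespace Pool.Agent.CRO

private theorem KF1_cont : Continuous fl := by
  unfold fl
  exact Real.continuous_arcsin.sub (continuous_id.mul
    (Real.continuous_sqrt.comp (continuous_const.sub (continuous_id.pow 2))))

private theorem KF1_deriv (X : ℝ) (h0 : -1 < X) (h1 : X < 1) :
    HasDerivAt fl (2 * X ^ 2 / Real.sqrt (1 - X ^ 2)) X := by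
  have hp : 0 < 1 - X ^ 2 := by nlinarith
  have hs : 0 < Real.sqrt (1 - X ^ 2) := Real.sqrt_pos.mpr hp
  have e1 := Real.hasDerivAt_arcsin h0.ne' h1.ne
  have e2 : HasDerivAt (fun X : ℝ => 1 - X ^ 2) (-(2 * X)) X := by
    have := ((hasDerivAt_id X).pow 2).const_sub 1
    simpa using this
  have e3 := e2.sqrt hp.ne'
  have e4 := (hasDerivAt_id X).mul e3
  have e5 := e1.sub e4
  have e6 : 1 / Real.sqrt (1 - X ^ 2) - (1 * Real.sqrt (1 - X ^ 2) + id X * (-(2 * X) / (2 * Real.sqrt (1 - X ^ 2)))) =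
      2 * X ^ 2 / Real.sqrt (1 - X ^ 2) := by
    have h2 : Real.sqrt (1 - X ^ 2) ^ 2 = 1 - X ^ 2 := Real.sq_sqrt hp.le
    simp only [id]
    field_simp
    rw [h2]
    ring
  rw [e6] at e5
  exact e5

private theorem KF1_sin (a : ℝ) (ha : a ∈ Icc 0 (Real.pi / 2)) :
    fl (Real.sin a) = a - Real.sin a * Real.cos a := by
  have h1 : Real.arcsin (Real.sin a) = a := Real.arcsin_sin (by linarith [ha.1, Real.pi_pos]) ha.2
  have h2 : Real.sqrt (1 - Real.sin a ^ 2) = Real.cos a := by
    rw [← Real.cos_eq_sqrt_one_sub_sin_sq (by linarith [ha.1, Real.pi_pos]) ha.2]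
  unfold fl
  rw [h1, h2]

private theorem KF1_g (a : ℝ) (ha : a ∈ Icc 0 (Real.pi / 2)) :
    0 ≤ Real.pi / 2 * Real.sin a ^ 2 - a + Real.sin a * Real.cos a := by
  have hd : ∀ x : ℝ, HasDerivAt (fun a => Real.pi / 2 * Real.sin a ^ 2 - a + Real.sin a * Real.cos a)
      (2 * Real.sin x * (Real.pi / 2 * Real.cos x - Real.sin x)) x := by
    intro x
    have e1 := (((Real.hasDerivAt_sin x).pow 2).const_mul (Real.pi / 2)).sub (hasDerivAt_id x)
    have e2 := e1.add ((Real.hasDerivAt_sin x).mul (Real.hasDerivAt_cos x))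
    have h := Real.sin_sq_add_cos_sq x
    have e3 : Real.pi / 2 * (((2 : ℕ) : ℝ) * Real.sin x ^ (2 - 1) * Real.cos x) - 1 +
        (Real.cos x * Real.cos x + Real.sin x * -Real.sin x) =
        2 * Real.sin x * (Real.pi / 2 * Real.cos x - Real.sin x) := by
      push_cast
      simp only [Nat.add_one_sub_one, pow_one]
      nlinarith
    rw [e3] at e2
    exact e2
  obtain ⟨b, hb⟩ : ∃ b : ℝ, b = Real.arctan (Real.pi / 2) := ⟨_, rfl⟩
  have hb0 : 0 < b := by
    rw [hb]
    exact Real.arctan_pos.mpr (by linarith [Real.pi_pos])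
  have hb1 : b < Real.pi / 2 := by
    rw [hb]
    exact Real.arctan_lt_pi_div_two _
  have hcb : 0 < Real.cos b := Real.cos_pos_of_mem_Ioo ⟨by linarith, hb1⟩
  have hsb : Real.sin b = Real.pi / 2 * Real.cos b := by
    have h1 : Real.tan b = Real.pi / 2 := by rw [hb, Real.tan_arctan]
    rw [Real.tan_eq_sin_div_cos, div_eq_iff hcb.ne'] at h1
    exact h1
  rcases le_total a b with hab | hab
  · have hm : MonotoneOn (fun a => Real.pi / 2 * Real.sin a ^ 2 - a + Real.sin a * Real.cos a) (Icc 0 b) := by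
      refine monotoneOn_of_deriv_nonneg (convex_Icc 0 b)
        (fun x _ => (hd x).continuousAt.continuousWithinAt)
        (fun x _ => (hd x).differentiableAt.differentiableWithinAt) fun x hx => ?_
      rw [interior_Icc] at hx
      rw [(hd x).deriv]
      have h1 : 0 ≤ Real.sin x := Real.sin_nonneg_of_nonneg_of_le_pi hx.1.le (by linarith [hx.2, Real.pi_pos])
      have h2 : Real.cos b ≤ Real.cos x :=
        Real.cos_le_cos_of_nonneg_of_le_pi hx.1.le (by linarith [Real.pi_pos]) hx.2.le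
      have h3 : Real.sin x ≤ Real.sin b :=
        Real.sin_le_sin_of_le_of_le_pi_div_two (by linarith [hx.1, Real.pi_pos]) hb1.le hx.2.le
      have h4 : 0 ≤ Real.pi / 2 * Real.cos x - Real.sin x := by
        have := mul_le_mul_of_nonneg_left h2 (by linarith [Real.pi_pos] : 0 ≤ Real.pi / 2)
        linarith
      positivity
    have := hm ⟨le_rfl, hb0.le⟩ ⟨ha.1, hab⟩ ha.1
    simpa using this
  · have hm : AntitoneOn (fun a => Real.pi / 2 * Real.sin a ^ 2 - a + Real.sin a * Real.cos a)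
        (Icc b (Real.pi / 2)) := by
      refine antitoneOn_of_deriv_nonpos (convex_Icc b (Real.pi / 2))
        (fun x _ => (hd x).continuousAt.continuousWithinAt)
        (fun x _ => (hd x).differentiableAt.differentiableWithinAt) fun x hx => ?_
      rw [interior_Icc] at hx
      rw [(hd x).deriv]
      have h1 : 0 ≤ Real.sin x := Real.sin_nonneg_of_nonneg_of_le_pi (by linarith [hx.1])
        (by linarith [hx.2, Real.pi_pos])
      have h2 : Real.cos x ≤ Real.cos b :=
        Real.cos_le_cos_of_nonneg_of_le_pi hb0.le (by linarith [Real.pi_pos, hx.2]) hx.1.le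
      have h3 : Real.sin b ≤ Real.sin x :=
        Real.sin_le_sin_of_le_of_le_pi_div_two (by linarith [Real.pi_pos]) hx.2.le hx.1.le
      have h4 : Real.pi / 2 * Real.cos x - Real.sin x ≤ 0 := by
        have := mul_le_mul_of_nonneg_left h2 (by linarith [Real.pi_pos] : 0 ≤ Real.pi / 2)
        linarith
      exact mul_nonpos_of_nonneg_of_nonpos (by positivity) h4
    have := hm ⟨hab, ha.2⟩ ⟨hb1.le, le_rfl⟩ ha.2
    simpa using this

private theorem KF1_mono' : MonotoneOn (fun X : ℝ => 2 * X ^ 2 / Real.sqrt (1 - X ^ 2)) (Ioo 0 1) := by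
  intro X hX Y hY hXY
  have hp : 0 < 1 - Y ^ 2 := by nlinarith [hY.1, hY.2]
  have hs : 0 < Real.sqrt (1 - Y ^ 2) := Real.sqrt_pos.mpr hp
  have h1 : X ^ 2 ≤ Y ^ 2 := by nlinarith [hX.1]
  have h2 : Real.sqrt (1 - Y ^ 2) ≤ Real.sqrt (1 - X ^ 2) := Real.sqrt_le_sqrt (by linarith)
  show 2 * X ^ 2 / Real.sqrt (1 - X ^ 2) ≤ 2 * Y ^ 2 / Real.sqrt (1 - Y ^ 2)
  gcongr

/-- KF1: the function `fl`. -/
theorem KF1 : KF1_stmt := by
  have h0 : fl 0 = 0 := by simp [fl]
  have h1 : fl 1 = Real.pi / 2 := by simp [fl]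
  have hmono : MonotoneOn fl (Icc 0 1) := by
    refine monotoneOn_of_deriv_nonneg (convex_Icc 0 1) KF1_cont.continuousOn
      (fun x hx => ?_) fun x hx => ?_
    · rw [interior_Icc] at hx
      exact (KF1_deriv x (by linarith [hx.1]) hx.2).differentiableAt.differentiableWithinAt
    · rw [interior_Icc] at hx
      rw [(KF1_deriv x (by linarith [hx.1]) hx.2).deriv]
      positivity
  refine ⟨?_, hmono, KF1_cont, h0, h1, KF1_sin, fun X hX => ⟨?_, ?_⟩⟩
  · refine MonotoneOn.convexOn_of_deriv (convex_Icc 0 1) KF1_cont.continuousOn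
      (fun x hx => ?_) ?_
    · rw [interior_Icc] at hx
      exact (KF1_deriv x (by linarith [hx.1]) hx.2).differentiableAt.differentiableWithinAt
    · rw [interior_Icc]
      refine KF1_mono'.congr fun x hx => ?_
      exact (KF1_deriv x (by linarith [hx.1]) hx.2).deriv.symm
  · have := hmono ⟨le_rfl, zero_le_one⟩ hX hX.1
    rwa [h0] at this
  · obtain ⟨a, ha⟩ : ∃ a : ℝ, a = Real.arcsin X := ⟨_, rfl⟩
    have hsa : Real.sin a = X := by
      rw [ha]
      exact Real.sin_arcsin (by linarith [hX.1]) hX.2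
    have ha0 : 0 ≤ a := by
      rw [ha]
      exact Real.arcsin_nonneg.mpr hX.1
    have ha1 : a ≤ Real.pi / 2 := by
      rw [ha]
      exact Real.arcsin_le_pi_div_two X
    have h2 := KF1_sin a ⟨ha0, ha1⟩
    have h3 := KF1_g a ⟨ha0, ha1⟩
    rw [← hsa, h2]
    linarith

end Pool.Agent.CRO
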