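import Pool.Agent.helper58.CRO.SpecK

/-!
# Row cro:KF2: the integral of fl over squares
-/

open scoped Manifold ContDiff Topology ENNReal
open MeasureTheory Set Bundle Filter

noncomputable section

namespace Pool.Agent.CRO

private def KF2_F (x : ℝ) : ℝ := -(dslope Real.arcsin 0 x) - Real.sqrt (1 - x ^ 2)

private theorem KF2_Fcont : Continuous KF2_F := by
  have h1 : Continuous (dslope Real.arcsin 0) := by
    rw [← continuousOn_univ, continuousOn_dslope univ_mem]
    exact ⟨Real.continuous_arcsin.continuousOn,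
      (Real.hasDerivAt_arcsin (by norm_num) (by norm_num)).differentiableAt⟩
  exact h1.neg.sub (Real.continuous_sqrt.comp (continuous_const.sub (continuous_id.pow 2)))

private theorem KF2_F0 : KF2_F 0 = -2 := by
  have h1 : deriv Real.arcsin 0 = 1 := by
    rw [(Real.hasDerivAt_arcsin (by norm_num) (by norm_num)).deriv]
    simp
  unfold KF2_F
  rw [dslope_same, h1]
  norm_num

private theorem KF2_Fx (x : ℝ) (hx : x ≠ 0) :
    KF2_F x = -(Real.arcsin x / x) - Real.sqrt (1 - x ^ 2) := by
  unfold KF2_F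
  rw [dslope_of_ne _ hx, slope_def_field, Real.arcsin_zero, sub_zero, sub_zero]

private theorem KF2_deriv (x : ℝ) (h0 : 0 < x) (h1 : x < 1) :
    HasDerivAt KF2_F (fl x / x ^ 2) x := by
  have hp : 0 < 1 - x ^ 2 := by nlinarith
  have hs : 0 < Real.sqrt (1 - x ^ 2) := Real.sqrt_pos.mpr hp
  have e1 := Real.hasDerivAt_arcsin (by linarith : x ≠ -1) h1.ne
  have e2 : HasDerivAt (fun X : ℝ => 1 - X ^ 2) (-(2 * x)) x := by
    have := ((hasDerivAt_id x).pow 2).const_sub 1
    simpa using this
  have e3 := e2.sqrt hp.ne'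
  have e4 := (e1.div (hasDerivAt_id x) h0.ne').neg.sub e3
  have e5 : -((1 / Real.sqrt (1 - x ^ 2) * id x - Real.arcsin x * 1) / id x ^ 2) -
      -(2 * x) / (2 * Real.sqrt (1 - x ^ 2)) = fl x / x ^ 2 := by
    have h2 : Real.sqrt (1 - x ^ 2) ^ 2 = 1 - x ^ 2 := Real.sq_sqrt hp.le
    simp only [id, fl]
    field_simp
    nlinarith [h2]
  rw [e5] at e4
  refine e4.congr_of_eventuallyEq ?_
  filter_upwards [Ioi_mem_nhds h0] with y hy
  exact KF2_Fx y (ne_of_gt hy)

/-- KF2: the integral of `fl` over squares. -/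
theorem KF2 (h1 : KF1_stmt) : KF2_stmt := by
  obtain ⟨-, -, hcont, f0, f1, fsin, fb⟩ := h1
  have hm : Measurable (fun x : ℝ => fl (min 1 x) / x ^ 2) :=
    (hcont.comp (continuous_const.min continuous_id)).measurable.div (measurable_id.pow_const 2)
  have hb : ∀ x : ℝ, 0 ≤ x → 0 ≤ fl (min 1 x) / x ^ 2 ∧ fl (min 1 x) / x ^ 2 ≤ Real.pi / 2 := by
    intro x hx
    rcases eq_or_lt_of_le hx with rfl | hx
    · have := Real.pi_pos.le
      simp
      positivity
    · have hx2 : 0 < x ^ 2 := by positivity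
      rcases le_total x 1 with hx1 | hx1
      · rw [min_eq_right hx1]
        obtain ⟨b1, b2⟩ := fb x ⟨hx.le, hx1⟩
        exact ⟨div_nonneg b1 hx2.le, (div_le_iff₀ hx2).mpr b2⟩
      · rw [min_eq_left hx1, f1]
        refine ⟨by positivity, (div_le_iff₀ hx2).mpr ?_⟩
        have : 1 ≤ x ^ 2 := by nlinarith
        nlinarith [Real.pi_pos]
  have hint : ∀ a b : ℝ, 0 ≤ a → a ≤ b →
      IntervalIntegrable (fun x => fl (min 1 x) / x ^ 2) volume a b := by
    intro a b ha hab
    rw [intervalIntegrable_iff_integrableOn_Ioc_of_le hab]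
    refine Measure.integrableOn_of_bounded (M := Real.pi / 2) (by simp) hm.aestronglyMeasurable ?_
    rw [ae_restrict_iff' measurableSet_Ioc]
    refine ae_of_all _ fun x hx => ?_
    obtain ⟨b1, b2⟩ := hb x (ha.trans hx.1.le)
    rw [Real.norm_of_nonneg b1]
    exact b2
  have hsmall : ∀ z : ℝ, 0 < z → z ≤ 1 → ∫ x in (0 : ℝ)..z, fl (min 1 x) / x ^ 2 =
      2 - Real.arcsin z / z - Real.sqrt (1 - z ^ 2) := by
    intro z hz hz1
    have e1 := intervalIntegral.integral_eq_sub_of_hasDerivAt_of_le hz.le KF2_Fcont.continuousOn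
      (f' := fun x => fl (min 1 x) / x ^ 2)
      (fun x hx => by
        have := KF2_deriv x hx.1 (hx.2.trans_le hz1)
        rw [min_eq_right (hx.2.le.trans hz1)]
        exact this) (hint 0 z le_rfl hz.le)
    rw [e1, KF2_F0, KF2_Fx z hz.ne']
    ring
  intro z hz
  refine ⟨hint 0 z le_rfl hz.le, ?_⟩
  have hup : ∫ x in (0 : ℝ)..z, fl (min 1 x) / x ^ 2 ≤ Real.pi / 2 * z := by
    have e1 : ∫ x in (0 : ℝ)..z, fl (min 1 x) / x ^ 2 ≤ ∫ _x in (0 : ℝ)..z, Real.pi / 2 :=
      intervalIntegral.integral_mono_on hz.le (hint 0 z le_rfl hz.le) intervalIntegrable_const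
        fun x hx => (hb x hx.1).2
    rw [intervalIntegral.integral_const, smul_eq_mul, sub_zero, mul_comm] at e1
    exact e1
  rcases le_total z 1 with hz1 | hz1
  · refine ⟨?_, ?_, hup⟩
    · rw [hsmall z hz hz1]
      obtain ⟨a, ha⟩ : ∃ a : ℝ, a = Real.arcsin z := ⟨_, rfl⟩
      have hsa : Real.sin a = z := by
        rw [ha]
        exact Real.sin_arcsin (by linarith) hz1
      have ha1 : a ≤ Real.pi / 2 := by
        rw [ha]
        exact Real.arcsin_le_pi_div_two z
      have ha0 : 0 ≤ a := by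
        rw [ha]
        exact Real.arcsin_nonneg.mpr hz.le
      have hc : Real.sqrt (1 - z ^ 2) = Real.cos a := by
        rw [ha, Real.cos_arcsin]
      have h2 : z * Real.cos a ≤ Real.pi / 2 - a := by
        have h3 : Real.cos a = Real.sin (Real.pi / 2 - a) := (Real.sin_pi_div_two_sub a).symm
        have h4 : Real.sin (Real.pi / 2 - a) ≤ Real.pi / 2 - a := Real.sin_le (by linarith)
        have h5 : 0 ≤ Real.cos a := by
          rw [← hc]
          exact Real.sqrt_nonneg _
        nlinarith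
      rw [hc, ← ha]
      have h6 : Real.pi / (2 * z) = (Real.pi / 2) / z := by
        field_simp
      have h7 : a / z + Real.cos a ≤ Real.pi / (2 * z) := by
        rw [h6, le_div_iff₀ hz, add_mul, div_mul_cancel₀ _ hz.ne']
        linarith
      linarith
    · rw [hsmall z hz hz1]
      have h3 : 0 ≤ Real.arcsin z / z := div_nonneg (Real.arcsin_nonneg.mpr hz.le) hz.le
      have h4 := Real.sqrt_nonneg (1 - z ^ 2)
      linarith
  · have hsplit := intervalIntegral.integral_add_adjacent_intervals (hint 0 1 le_rfl zero_le_one)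
      (hint 1 z zero_le_one hz1)
    have e1 := hsmall 1 zero_lt_one le_rfl
    have e2 : ∫ x in (1 : ℝ)..z, fl (min 1 x) / x ^ 2 = Real.pi / 2 - Real.pi / (2 * z) := by
      have e3 := intervalIntegral.integral_eq_sub_of_hasDerivAt_of_le hz1
        (f := fun x : ℝ => -(Real.pi / 2) * x⁻¹)
        (f' := fun x => fl (min 1 x) / x ^ 2) ?_
        (fun x hx => by
          rw [min_eq_left hx.1.le, f1]
          have := (hasDerivAt_inv (by linarith [hx.1] : x ≠ 0)).const_mul (-(Real.pi / 2))
          have h5 : -(Real.pi / 2) * -(x ^ 2)⁻¹ = Real.pi / 2 / x ^ 2 := by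
            rw [div_eq_mul_inv (Real.pi / 2) (x ^ 2)]
            ring
          rw [h5] at this
          exact this) (hint 1 z zero_le_one hz1)
      · rw [e3]
        field_simp
        ring
      · refine ContinuousOn.mul continuousOn_const (ContinuousOn.inv₀ continuousOn_id fun x hx => ?_)
        have := hx.1
        have h9 : (0 : ℝ) < x := by linarith
        exact h9.ne'
    have e4 : ∫ x in (0 : ℝ)..z, fl (min 1 x) / x ^ 2 = 2 - Real.pi / (2 * z) := by
      rw [← hsplit, e1, e2, Real.arcsin_one]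
      norm_num
    refine ⟨e4.ge, ?_, hup⟩
    rw [e4]
    have : 0 < Real.pi / (2 * z) := by
      have := Real.pi_pos
      positivity
    linarith

end Pool.Agent.CRO
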