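import Pool.Agent.helper58.CRO.SpecK

/-!
# Row cro:KL1: the local inequality for continuous functions
-/

open scoped Manifold ContDiff Topology ENNReal
open MeasureTheory Set Bundle Filter

noncomputable section

namespace Pool.Agent.CRO

private theorem KL1_conc (b c d D : ℝ) (hc : c = Real.pi - b) (h0 : 0 ≤ d) (h1 : d ≤ b)
    (h2 : b ≤ Real.pi) (h3 : d ≤ D) (h4 : D ≤ d + c) :
    Real.sin d + (D - d) / c * (Real.sin (b - d) - Real.sin d) ≤ Real.sin D := by
  rcases eq_or_lt_of_le h2 with h5 | h5
  · have hc0 : c = 0 := by linarith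
    have hD : D = d := by linarith
    rw [hD]
    simp
  · have hc0 : 0 < c := by linarith
    have h9 : 0 ≤ 1 - (D - d) / c := by
      have : (D - d) / c ≤ 1 := by
        rw [div_le_one hc0]
        linarith
      linarith
    have h10 : 0 ≤ (D - d) / c := div_nonneg (by linarith) hc0.le
    have h6 := (strictConcaveOn_sin_Icc.concaveOn).2 (show d ∈ Icc 0 Real.pi from ⟨h0, by linarith⟩)
      (show d + c ∈ Icc 0 Real.pi from ⟨by linarith, by linarith⟩) h9 h10 (by ring)
    simp only [smul_eq_mul] at h6
    have h7 : (1 - (D - d) / c) * d + (D - d) / c * (d + c) = D := by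
      field_simp
      ring
    have h8 : Real.sin (d + c) = Real.sin (b - d) := by
      rw [hc, ← Real.sin_pi_sub (b - d)]
      congr 1
      ring
    rw [h7, h8] at h6
    linarith

/-- KL1: the local inequality for continuous `κ`. -/
theorem KL1 : KL1_stmt := by
  intro κ hκ hκ01
  have hpi := Real.pi_pos
  -- antiderivatives
  have hFT : ∀ f : ℝ → ℝ, Continuous f → ∀ t, HasDerivAt (fun t => ∫ u in (0 : ℝ)..t, f u) (f t) t :=
    fun f hf t => (hf.integral_hasStrictDerivAt 0 t).hasDerivAt
  obtain ⟨K, hK⟩ : ∃ K : ℝ → ℝ, K = fun t => ∫ u in (0 : ℝ)..t, κ u := ⟨_, rfl⟩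
  have dK : ∀ t, HasDerivAt K (κ t) t := by
    intro t
    rw [hK]
    exact hFT κ hκ t
  have cK : Continuous K := continuous_iff_continuousAt.mpr fun t => (dK t).continuousAt
  obtain ⟨C, hC⟩ : ∃ C : ℝ → ℝ, C = fun t => ∫ u in (0 : ℝ)..t, (1 - κ u) * Real.cos (K u) := ⟨_, rfl⟩
  have dC : ∀ t, HasDerivAt C ((1 - κ t) * Real.cos (K t)) t := by
    intro t
    rw [hC]
    exact hFT _ ((continuous_const.sub hκ).mul (Real.continuous_cos.comp cK)) t
  obtain ⟨S, hS⟩ : ∃ S : ℝ → ℝ, S = fun t => ∫ u in (0 : ℝ)..t, (1 - κ u) * Real.sin (K u) := ⟨_, rfl⟩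
  have dS : ∀ t, HasDerivAt S ((1 - κ t) * Real.sin (K t)) t := by
    intro t
    rw [hS]
    exact hFT _ ((continuous_const.sub hκ).mul (Real.continuous_sin.comp cK)) t
  obtain ⟨M, hM⟩ : ∃ M : ℝ → ℝ, M = fun t => ∫ u in (0 : ℝ)..t, (1 - κ u) * K u := ⟨_, rfl⟩
  have dM : ∀ t, HasDerivAt M ((1 - κ t) * K t) t := by
    intro t
    rw [hM]
    exact hFT _ ((continuous_const.sub hκ).mul cK) t
  obtain ⟨a, ha⟩ : ∃ a : ℝ → ℝ, a = fun t => ∫ u in (0 : ℝ)..t, κ u * Real.cos u := ⟨_, rfl⟩
  have da : ∀ t, HasDerivAt a (κ t * Real.cos t) t := by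
    intro t
    rw [ha]
    exact hFT _ (hκ.mul Real.continuous_cos) t
  obtain ⟨s, hs⟩ : ∃ s : ℝ → ℝ, s = fun t => ∫ u in (0 : ℝ)..t, κ u * Real.sin u := ⟨_, rfl⟩
  have ds : ∀ t, HasDerivAt s (κ t * Real.sin t) t := by
    intro t
    rw [hs]
    exact hFT _ (hκ.mul Real.continuous_sin) t
  have K0 : K 0 = 0 := by rw [hK]; simp
  have C0 : C 0 = 0 := by rw [hC]; simp
  have S0 : S 0 = 0 := by rw [hS]; simp
  have M0 : M 0 = 0 := by rw [hM]; simp
  have a0 : a 0 = 0 := by rw [ha]; simp
  have s0 : s 0 = 0 := by rw [hs]; simp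
  have ca : Continuous a := continuous_iff_continuousAt.mpr fun t => (da t).continuousAt
  have cs : Continuous s := continuous_iff_continuousAt.mpr fun t => (ds t).continuousAt
  have cC : Continuous C := continuous_iff_continuousAt.mpr fun t => (dC t).continuousAt
  have cS : Continuous S := continuous_iff_continuousAt.mpr fun t => (dS t).continuousAt
  -- monotonicity
  have mK : Monotone K := monotone_of_deriv_nonneg (fun t => (dK t).differentiableAt) fun t => by
    rw [(dK t).deriv]
    exact (hκ01 t).1
  have de : ∀ t, HasDerivAt (fun t => t - K t) (1 - κ t) t := fun t => (hasDerivAt_id t).sub (dK t)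
  have me : Monotone (fun t => t - K t) := monotone_of_deriv_nonneg
    (fun t => (de t).differentiableAt) fun t => by
    rw [(de t).deriv]
    linarith [(hκ01 t).2]
  obtain ⟨b, hb⟩ : ∃ b : ℝ, b = K Real.pi := ⟨_, rfl⟩
  have hb' : ∫ u in (0 : ℝ)..Real.pi, κ u = b := by rw [hb, hK]
  rw [hb']
  obtain ⟨c, hc⟩ : ∃ c : ℝ, c = Real.pi - b := ⟨_, rfl⟩
  have hb0 : 0 ≤ b := by
    rw [hb, ← K0]
    exact mK hpi.le
  have hb1 : b ≤ Real.pi := by
    have := me hpi.le
    simp only [K0] at this
    rw [hb]
    linarith
  -- the integral over u < v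
  have hp : ∀ v, ∫ u in (0 : ℝ)..v, κ u * Real.sin (v - u) = Real.sin v * a v - Real.cos v * s v := by
    intro v
    have e1 : ∀ u ∈ uIcc 0 v, HasDerivAt (fun u => Real.sin v * a u - Real.cos v * s u)
        (κ u * Real.sin (v - u)) u := by
      intro u _
      have := ((da u).const_mul (Real.sin v)).sub ((ds u).const_mul (Real.cos v))
      have h2 : Real.sin v * (κ u * Real.cos u) - Real.cos v * (κ u * Real.sin u) =
          κ u * Real.sin (v - u) := by
        rw [Real.sin_sub]
        ring
      rw [h2] at this
      exact this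
    rw [intervalIntegral.integral_eq_sub_of_hasDerivAt e1
      ((hκ.mul (Real.continuous_sin.comp (continuous_const.sub continuous_id))).intervalIntegrable _ _),
      a0, s0]
    ring
  have hp2 : ∀ u, ∫ v in u..Real.pi, κ v * Real.sin (v - u) =
      Real.cos u * (s Real.pi - s u) - Real.sin u * (a Real.pi - a u) := by
    intro u
    have e1 : ∀ v ∈ uIcc u Real.pi, HasDerivAt (fun v => Real.cos u * s v - Real.sin u * a v)
        (κ v * Real.sin (v - u)) v := by
      intro v _
      have := ((ds v).const_mul (Real.cos u)).sub ((da v).const_mul (Real.sin u))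
      have h2 : Real.cos u * (κ v * Real.sin v) - Real.sin u * (κ v * Real.cos v) =
          κ v * Real.sin (v - u) := by
        rw [Real.sin_sub]
        ring
      rw [h2] at this
      exact this
    rw [intervalIntegral.integral_eq_sub_of_hasDerivAt e1
      ((hκ.mul (Real.continuous_sin.comp (continuous_id.sub continuous_const))).intervalIntegrable _ _)]
    ring
  -- the inner integral
  have hin : ∀ u ∈ uIcc (0 : ℝ) Real.pi, ∫ v in (0 : ℝ)..Real.pi, κ u * κ v * |Real.sin (u - v)| =
      κ u * (2 * (Real.sin u * a u - Real.cos u * s u) + Real.cos u * s Real.pi -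
        Real.sin u * a Real.pi) := by
    intro u hu
    rw [uIcc_of_le hpi.le] at hu
    have hcont : Continuous fun v => κ u * κ v * |Real.sin (u - v)| :=
      (continuous_const.mul hκ).mul
        (Real.continuous_sin.comp (continuous_const.sub continuous_id)).abs
    rw [← intervalIntegral.integral_add_adjacent_intervals (hcont.intervalIntegrable 0 u)
      (hcont.intervalIntegrable u Real.pi)]
    have e1 : ∫ v in (0 : ℝ)..u, κ u * κ v * |Real.sin (u - v)| =
        κ u * ∫ v in (0 : ℝ)..u, κ v * Real.sin (u - v) := by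
      rw [← intervalIntegral.integral_const_mul]
      refine intervalIntegral.integral_congr fun v hv => ?_
      rw [uIcc_of_le hu.1] at hv
      have h2 : 0 ≤ Real.sin (u - v) :=
        Real.sin_nonneg_of_nonneg_of_le_pi (by linarith [hv.2]) (by linarith [hv.1, hu.2])
      simp only [abs_of_nonneg h2]
      ring
    have e2 : ∫ v in u..Real.pi, κ u * κ v * |Real.sin (u - v)| =
        κ u * ∫ v in u..Real.pi, κ v * Real.sin (v - u) := by
      rw [← intervalIntegral.integral_const_mul]
      refine intervalIntegral.integral_congr fun v hv => ?_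
      rw [uIcc_of_le hu.2] at hv
      have h2 : 0 ≤ Real.sin (v - u) :=
        Real.sin_nonneg_of_nonneg_of_le_pi (by linarith [hv.1]) (by linarith [hv.2, hu.1])
      have h3 : |Real.sin (u - v)| = Real.sin (v - u) := by
        rw [← abs_neg, ← Real.sin_neg, neg_sub, abs_of_nonneg h2]
      simp only [h3]
      ring
    rw [e1, e2, hp u, hp2 u]
    ring
  rw [intervalIntegral.integral_congr hin]
  -- the lower bound for the integral over u < v
  obtain ⟨P, hP⟩ : ∃ P : ℝ → ℝ, P = fun v => (1 - Real.cos (K v)) + (1 / c) *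
      ((v - K v) * ((1 + Real.cos b) * Real.cos (K v) + Real.sin b * Real.sin (K v) - (1 + Real.cos b)) -
      ((1 + Real.cos b) * (Real.cos (K v) * C v + Real.sin (K v) * S v) +
        Real.sin b * (Real.sin (K v) * C v - Real.cos (K v) * S v) -
        (1 + Real.cos b) * (v - K v))) := ⟨_, rfl⟩
  have hPint : ∀ v, ∫ u in (0 : ℝ)..v, κ u * (Real.sin (K v - K u) +
      ((v - u) - (K v - K u)) / c * (Real.sin (b - (K v - K u)) - Real.sin (K v - K u))) = P v := by
    intro v
    have e1 : ∀ u ∈ uIcc 0 v, HasDerivAt (fun u => Real.cos (K v - K u) + (1 / c) *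
        (-(((v - K v) - (u - K u)) * ((1 + Real.cos b) * Real.cos (K v - K u) +
          Real.sin b * Real.sin (K v - K u) - (1 + Real.cos b))) -
        ((1 + Real.cos b) * (Real.cos (K v) * C u + Real.sin (K v) * S u) +
        Real.sin b * (Real.sin (K v) * C u - Real.cos (K v) * S u) -
        (1 + Real.cos b) * (u - K u))))
        (κ u * (Real.sin (K v - K u) +
      ((v - u) - (K v - K u)) / c * (Real.sin (b - (K v - K u)) - Real.sin (K v - K u)))) u := by
      intro u _
      have f1 : HasDerivAt (fun u => K v - K u) (-(κ u)) u := (dK u).const_sub (K v)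
      have f2 := f1.cos
      have f3 := f1.sin
      have f4 : HasDerivAt (fun u => (v - K v) - (u - K u)) (-(1 - κ u)) u := (de u).const_sub _
      have f5 := ((f2.const_mul (1 + Real.cos b)).add (f3.const_mul (Real.sin b))).sub_const
        (1 + Real.cos b)
      have f6 := (f4.mul f5).neg
      have f7 := (((dC u).const_mul (Real.cos (K v))).add ((dS u).const_mul (Real.sin (K v)))).const_mul
        (1 + Real.cos b)
      have f8 := (((dC u).const_mul (Real.sin (K v))).sub ((dS u).const_mul (Real.cos (K v)))).const_mul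
        (Real.sin b)
      have f9 := (f7.add f8).sub ((de u).const_mul (1 + Real.cos b))
      have f10 := f2.add ((f6.sub f9).const_mul (1 / c))
      refine f10.congr_deriv ?_
      simp only [Pi.add_apply]
      rw [Real.sin_sub b (K v - K u), Real.cos_sub, Real.sin_sub (K v) (K u)]
      ring
    have hint : IntervalIntegrable (fun u => κ u * (Real.sin (K v - K u) +
      ((v - u) - (K v - K u)) / c * (Real.sin (b - (K v - K u)) - Real.sin (K v - K u)))) volume 0 v := by
      refine Continuous.intervalIntegrable ?_ _ _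
      have g1 : Continuous fun u => K v - K u := continuous_const.sub cK
      have g2 : Continuous fun u => Real.sin (K v - K u) := Real.continuous_sin.comp g1
      exact hκ.mul (g2.add ((((continuous_const.sub continuous_id).sub g1).div_const c).mul
        ((Real.continuous_sin.comp (continuous_const.sub g1)).sub g2)))
    rw [intervalIntegral.integral_eq_sub_of_hasDerivAt e1 hint, hP, K0, C0, S0]
    simp only [sub_self, Real.cos_zero, Real.sin_zero, sub_zero, zero_mul, mul_zero, neg_zero]
    ring
  have hPle : ∀ v ∈ Icc (0 : ℝ) Real.pi, P v ≤ Real.sin v * a v - Real.cos v * s v := by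
    intro v hv
    rw [← hp v, ← hPint v]
    refine intervalIntegral.integral_mono_on hv.1 ?_ ?_ fun u hu => ?_
    · refine Continuous.intervalIntegrable ?_ _ _
      have g1 : Continuous fun u => K v - K u := continuous_const.sub cK
      have g2 : Continuous fun u => Real.sin (K v - K u) := Real.continuous_sin.comp g1
      exact hκ.mul (g2.add ((((continuous_const.sub continuous_id).sub g1).div_const c).mul
        ((Real.continuous_sin.comp (continuous_const.sub g1)).sub g2)))
    · exact (hκ.mul (Real.continuous_sin.comp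
        (continuous_const.sub continuous_id))).intervalIntegrable _ _
    · refine mul_le_mul_of_nonneg_left ?_ (hκ01 u).1
      have m1 := mK hu.2
      have m2 : K v ≤ b := by
        rw [hb]
        exact mK hv.2
      have m3 : 0 ≤ K u := by
        rw [← K0]
        exact mK hu.1
      have m4 := me hu.2
      have m5 := me hv.2
      have m6 := me hu.1
      simp only [K0] at m4 m5 m6
      rw [← hb] at m5
      exact KL1_conc b c (K v - K u) (v - u) hc (by linarith) (by linarith) hb1 (by linarith)
        (by linarith)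
  -- the final function
  obtain ⟨Q, hQ⟩ : ∃ Q : ℝ → ℝ, Q = fun v =>
      ((1 + Real.cos b) * Real.sin (K v) - Real.sin b * (Real.cos (K v) - 1) - (1 + Real.cos b) * K v) *
        (v - K v) -
      ((1 + Real.cos b) * S v - Real.sin b * (C v - (v - K v)) - (1 + Real.cos b) * M v) -
      ((1 + Real.cos b) * (Real.sin (K v) * C v - Real.cos (K v) * S v) -
        Real.sin b * (Real.cos (K v) * C v + Real.sin (K v) * S v - (v - K v)) -
        (1 + Real.cos b) * (K v * (v - K v) - M v)) := ⟨_, rfl⟩
  have hZ : ∀ v ∈ uIcc 0 Real.pi, HasDerivAt (fun v => 2 * (K v - Real.sin (K v)) + 2 * (1 / c) * Q v +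
      (a v * s Real.pi - s v * a Real.pi))
      (κ v * (2 * P v + Real.cos v * s Real.pi - Real.sin v * a Real.pi)) v := by
    intro v _
    have f1 := (dK v).cos
    have f2 := (dK v).sin
    have f3 := (((f2.const_mul (1 + Real.cos b)).sub ((f1.sub_const 1).const_mul (Real.sin b))).sub
      ((dK v).const_mul (1 + Real.cos b))).mul (de v)
    have f4 := (((dS v).const_mul (1 + Real.cos b)).sub (((dC v).sub (de v)).const_mul (Real.sin b))).sub
      ((dM v).const_mul (1 + Real.cos b))
    have f5 := ((f2.mul (dC v)).sub (f1.mul (dS v))).const_mul (1 + Real.cos b)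
    have f6 := (((f1.mul (dC v)).add (f2.mul (dS v))).sub (de v)).const_mul (Real.sin b)
    have f7 := (((dK v).mul (de v)).sub (dM v)).const_mul (1 + Real.cos b)
    have f8 := (f3.sub f4).sub ((f5.sub f6).sub f7)
    have f9 := ((dK v).sub f2).const_mul 2
    have f10 := ((da v).mul_const (s Real.pi)).sub ((ds v).mul_const (a Real.pi))
    have f11 := (f9.add (f8.const_mul (2 * (1 / c)))).add f10
    rw [hQ]
    refine f11.congr_deriv ?_
    rw [hP]
    have hcs := Real.sin_sq_add_cos_sq (K v)
    simp only [Pi.sub_apply]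
    linear_combination (-(2 * (1 / c) * (-(Real.sin b)) * (1 - κ v))) * hcs
  have hcP : Continuous P := by
    rw [hP]
    have g1 : Continuous fun v => Real.cos (K v) := Real.continuous_cos.comp cK
    have g2 : Continuous fun v => Real.sin (K v) := Real.continuous_sin.comp cK
    have g3 : Continuous fun v => v - K v := continuous_id.sub cK
    exact (continuous_const.sub g1).add (continuous_const.mul
      ((g3.mul (((continuous_const.mul g1).add (continuous_const.mul g2)).sub continuous_const)).sub
      (((continuous_const.mul ((g1.mul cC).add (g2.mul cS))).add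
        (continuous_const.mul ((g2.mul cC).sub (g1.mul cS)))).sub (continuous_const.mul g3))))
  have hcont1 : Continuous fun v => κ v * (2 * P v + Real.cos v * s Real.pi - Real.sin v * a Real.pi) :=
    hκ.mul (((continuous_const.mul hcP).add (Real.continuous_cos.mul continuous_const)).sub
      (Real.continuous_sin.mul continuous_const))
  have hcont2 : Continuous fun v => κ v * (2 * (Real.sin v * a v - Real.cos v * s v) +
      Real.cos v * s Real.pi - Real.sin v * a Real.pi) :=
    hκ.mul (((continuous_const.mul ((Real.continuous_sin.mul ca).sub (Real.continuous_cos.mul cs))).add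
      (Real.continuous_cos.mul continuous_const)).sub (Real.continuous_sin.mul continuous_const))
  have hfin := intervalIntegral.integral_eq_sub_of_hasDerivAt hZ (hcont1.intervalIntegrable _ _)
  have hQ0 : Q 0 = 0 := by
    rw [hQ]
    simp [K0, C0, S0, M0]
  have hQ1 : Q Real.pi = 0 := by
    rw [hQ]
    simp only []
    rw [← hb]
    have hcs := Real.sin_sq_add_cos_sq b
    linear_combination (S Real.pi) * hcs
  rw [hQ0, hQ1, K0, a0, s0, ← hb] at hfin
  calc 2 * (b - Real.sin b) = ∫ v in (0 : ℝ)..Real.pi, κ v * (2 * P v + Real.cos v * s Real.pi -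
        Real.sin v * a Real.pi) := by
        rw [hfin, Real.sin_zero]
        ring
    _ ≤ ∫ v in (0 : ℝ)..Real.pi, κ v * (2 * (Real.sin v * a v - Real.cos v * s v) +
        Real.cos v * s Real.pi - Real.sin v * a Real.pi) := by
        refine intervalIntegral.integral_mono_on hpi.le (hcont1.intervalIntegrable _ _)
          (hcont2.intervalIntegrable _ _) fun v hv => ?_
        refine mul_le_mul_of_nonneg_left ?_ (hκ01 v).1
        have := hPle v hv
        linarith

end Pool.Agent.CRO
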